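import Pool.Agent.MP_3e91a1_nt.CC.All
import Pool.Agent.MP_3e91a1_nt.Brg

/- Weak Leopoldt for almost all primes over almost all members of a family of complex cubic
fields. -/

open Filter NumberField Pool.Agent.MP_3e91a1_nt.WL

namespace Pool.Agent.Results.MP_3e91a1_nt.ComplexCubic

theorem result (δ : ℝ) (hδ : 0 < δ) : ∃ C : ℝ, ∀ w : ℕ → AlgebraicClosure ℚ,
    (∀ T : ℕ, w T ^ 3 + T * w T + T = 0) → ∀ M : ℕ, 2 ≤ M → ∀ᶠ x : ℕ in atTop,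
      (Set.ncard {T : ℕ | 1 ≤ T ∧ T ≤ M ∧
        (Set.ncard {p : ℕ | p ≤ x ∧ ∃ _ : Fact p.Prime,
          ∀ K, PExt p (IntermediateField.adjoin ℚ {w T}) K →
            WeakLeopoldt p K (AlgebraicClosure ℚ) {0}} : ℝ) < (1 - δ) * x / Real.log x} : ℝ) ≤
        C * Real.log M ^ 5 := by
  obtain ⟨C, hC⟩ := Pool.Agent.MP_3e91a1_nt.CC.few_ok δ hδ
  refine ⟨C, fun w hw M hM => ?_⟩
  choose a B h using fun T => Pool.Agent.MP_3e91a1_nt.CC.point T (w T) (hw T)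
  filter_upwards [hC a B (fun T hT => (h T hT).1) M hM] with x hx
  refine le_trans (Nat.cast_le.2 (Set.ncard_le_ncard ?_ ?_)) hx
  swap
  · exact (Set.finite_le_nat M).subset fun T hT => hT.2.1
  refine fun T hT => ⟨hT.1, hT.2.1, lt_of_le_of_lt (Nat.cast_le.2 (Set.ncard_le_ncard (fun p hp => ?_)
    ((Set.finite_le_nat x).subset fun p hp => hp.1))) hT.2.2⟩
  obtain ⟨h1, h2, h3, h4⟩ := hp
  exact ⟨h1, ⟨h2⟩, fun K hK => @Pool.Agent.MP_3e91a1_nt.wl_BRG p ⟨h2⟩ _ _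
    (@(h T hT.1).2 p ⟨h2⟩ h3 h4 K (Pool.Agent.MP_3e91a1_nt.pext_BRG hK))⟩

end Pool.Agent.Results.MP_3e91a1_nt.ComplexCubic
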