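import Pool.Agent.MP_3e91a1_nt.GN.All
import Pool.Agent.MP_3e91a1_nt.Brg

/- Weak Leopoldt for almost all primes over almost all members of families of totally real fields
of every degree and their totally imaginary quadratic extensions. -/

open Filter NumberField Pool.Agent.MP_3e91a1_nt.WL

namespace Pool.Agent.Results.MP_3e91a1_nt.EveryDegree

theorem result (m : ℕ) (r : Fin m → ℤ) (hr : Function.Injective r) (δ ε : ℝ) (hδ : 0 < δ)
    (hε : 0 < ε) : ∀ᶠ M : ℕ in atTop,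
    ∀ (k : ℕ → IntermediateField ℚ (AlgebraicClosure ℚ)) [∀ T, NumberField (k T)],
      (∀ T : ℕ, ∃ w ∈ k T, (∏ i, (w - r i)) * (w + T) = 1) → (∀ T, Units.rank (k T) ≤ m) →
      ∀ᶠ x : ℕ in atTop, (Set.ncard {T : ℕ | 1 ≤ T ∧ T ≤ M ∧
        (Set.ncard {p : ℕ | p ≤ x ∧ ∃ _ : Fact p.Prime, ∀ K, PExt p (k T) K →
          WeakLeopoldt p K (AlgebraicClosure ℚ) {0}} : ℝ) < (1 - δ) * x / Real.log x} : ℝ) ≤
        ε * M := by
  filter_upwards [Pool.Agent.MP_3e91a1_nt.GN.main m r hr δ ε hδ hε] with M hM k _ hw hk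
  exact hM k _ hw hk fun T p hp h => ⟨hp, fun K hK => Pool.Agent.MP_3e91a1_nt.wl_BRG
    (h.2 K (Pool.Agent.MP_3e91a1_nt.pext_BRG hK))⟩

end Pool.Agent.Results.MP_3e91a1_nt.EveryDegree
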