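import Pool.Agent.MP_3e91a1_nt.TR.All
import Pool.Agent.MP_3e91a1_nt.Brg

/- Weak Leopoldt for almost all primes over almost all cubic fields of Ennola and their
totally imaginary quadratic extensions. -/

open Filter NumberField Pool.Agent.MP_3e91a1_nt.WL

namespace Pool.Agent.Results.MP_3e91a1_nt.RealCubic

theorem result (δ ε : ℝ) (hδ : 0 < δ) (hε : 0 < ε) : ∀ᶠ M : ℕ in atTop,
    ∀ (k : ℕ → IntermediateField ℚ (AlgebraicClosure ℚ)) [∀ T, NumberField (k T)],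
      (∀ T : ℕ, ∃ w ∈ k T, w * (w - 1) * (w + T) = 1) → (∀ T, Units.rank (k T) ≤ 2) →
      ∀ᶠ x : ℕ in atTop, (Set.ncard {T : ℕ | 1 ≤ T ∧ T ≤ M ∧
        (Set.ncard {p : ℕ | p ≤ x ∧ ∃ _ : Fact p.Prime, ∀ K, PExt p (k T) K →
          WeakLeopoldt p K (AlgebraicClosure ℚ) {0}} : ℝ) < (1 - δ) * x / Real.log x} : ℝ) ≤
        ε * M := by
  filter_upwards [Pool.Agent.MP_3e91a1_nt.TR.cnt_ok δ ε hδ hε] with M hM k _ hw hr
  refine hM _ fun T a b e ht => ?_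
  obtain ⟨w, h1, h2⟩ := hw T
  obtain ⟨B, hB⟩ := Pool.Agent.MP_3e91a1_nt.TR.one_ok T (k T) w a b e (hr T) h1 h2 ht
  exact ⟨B, fun p hp h3 h4 => ⟨⟨hp⟩, fun K hK => @Pool.Agent.MP_3e91a1_nt.wl_BRG p ⟨hp⟩ _ _
    ((@hB p ⟨hp⟩ h3 h4).2 K (Pool.Agent.MP_3e91a1_nt.pext_BRG hK))⟩⟩

end Pool.Agent.Results.MP_3e91a1_nt.RealCubic
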